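import Mathlib
import Pool.Agent.V11242.QC.Split

/-!
# `S₁(Ωˢ, Γˢ)` does not imply that `Q_p(X, ℝ)` is Fréchet–Urysohn
-/

set_option autoImplicit false

namespace Pool.Agent.Results.MP_76989b_gt.NotAtEveryPoint

open Pool.Agent.V11242.QC

/-- There is a Hausdorff space `X` which has the property `S₁(Ωˢ, Γˢ)` (even in the stronger form
`S1'`), such that there is a point `f` at which `Q_p(X, ℝ)` is not Fréchet–Urysohn. -/
theorem result : ∃ (X : Type) (_ : TopologicalSpace X), T2Space X ∧ S1 X ∧ S1' X ∧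
    ∃ f : Qp X, ¬ IsFUAt (Qp X) f :=
  main_split

end Pool.Agent.Results.MP_76989b_gt.NotAtEveryPoint
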