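import Mathlib
import Pool.Agent.V11242.QC.WhyburnFU

/-!
# For open Whyburn spaces `S₁(Ωˢ, Γˢ)` implies that `Q_p(X, ℝ)` is Fréchet–Urysohn
-/

set_option autoImplicit false

namespace Pool.Agent.Results.MP_76989b_gt.OpenWhyburnCase

open Pool.Agent.V11242.QC

/-- If `X` is an open Whyburn Hausdorff space with the property `S₁(Ωˢ, Γˢ)`, then `Q_p(X, ℝ)` is
Fréchet–Urysohn at each of its points. -/
theorem result (X : Type) [TopologicalSpace X] [T2Space X] (hW : IsOpenWhyburn X) (hS : S1 X) :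
    ∀ f : Qp X, IsFUAt (Qp X) f :=
  isFU_of_whyburn hW hS

end Pool.Agent.Results.MP_76989b_gt.OpenWhyburnCase
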